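import Pool.Agent.Helper12.RQ.Polar

/-!
MP_a2585e_an, packet MAS: the general estimate.
-/

set_option autoImplicit false

open MeasureTheory Set Filter Topology Metric

open scoped ENNReal NNReal ContDiff

namespace Pool.Agent.Helper96.RQ

open Pool.Agent.Helper12.RQ

/-- radial functions on rings around `x₀` -/
theorem ring_int (n : ℕ) (hn : 1 ≤ n) (x₀ : E n) (g : ℝ → ℝ≥0∞) (hg : Measurable g) (r R : ℝ)
    (hr : 0 < r) :
    ∫⁻ x in {x : E n | r < dist x x₀ ∧ dist x x₀ < R}, g (dist x x₀) =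
      ENNReal.ofReal (om n) * ∫⁻ s in Ioo r R, g s * ENNReal.ofReal (s ^ (n - 1)) := by
  have h1 := polar n hn g hg (Ioo r R) measurableSet_Ioo fun s hs => hr.trans hs.1
  rw [← h1]
  have hm1 : MeasurableSet {x : E n | r < dist x x₀ ∧ dist x x₀ < R} :=
    (measurable_id.dist measurable_const) measurableSet_Ioo
  have hm2 : MeasurableSet {x : E n | ‖x‖ ∈ Ioo r R} := measurable_norm measurableSet_Ioo
  rw [← lintegral_indicator hm1, ← lintegral_indicator hm2]
  rw [← lintegral_sub_right_eq_self (μ := (volume : Measure (E n)))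
    (fun x => {x : E n | ‖x‖ ∈ Ioo r R}.indicator (fun x => g ‖x‖) x) x₀]
  refine lintegral_congr fun x => ?_
  have hd : dist x x₀ = ‖x - x₀‖ := dist_eq_norm x x₀
  by_cases hx : r < dist x x₀ ∧ dist x x₀ < R
  · rw [indicator_of_mem (by exact hx), indicator_of_mem (by
      show ‖x - x₀‖ ∈ Ioo r R
      rw [← hd]
      exact hx), hd]
  · rw [indicator_of_notMem (by exact hx), indicator_of_notMem (by
      show ¬ ‖x - x₀‖ ∈ Ioo r R
      rw [← hd]
      exact hx)]

/-- integrals of nonnegative continuous functions over intervals -/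
theorem lint_Ioo (u : ℝ → ℝ) (r R : ℝ) (h : r < R) (hc : ContinuousOn u (Icc r R))
    (h0 : ∀ s ∈ Ioo r R, 0 ≤ u s) :
    ∫⁻ s in Ioo r R, ENNReal.ofReal (u s) = ENNReal.ofReal (∫ s in r..R, u s) := by
  rw [intervalIntegral.integral_of_le h.le, ← setIntegral_congr_set (Ioo_ae_eq_Ioc)]
  rw [ofReal_integral_eq_lintegral_ofReal]
  · exact (hc.integrableOn_Icc).mono_set Ioo_subset_Icc_self
  · exact (ae_restrict_iff' measurableSet_Ioo).2 (Filter.Eventually.of_forall h0)

theorem mas (h1 : StmtKEY) (h2 : StmtPOS) : StmtMAS := by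
  intro n p hn hp1 hp2 G x₀ Q f hD α hα x r R hr hrR hG hx
  obtain ⟨hpos, hfin⟩ := h2 n p hn hp1 hp2
  have hn1 : 1 ≤ n := by omega
  have hom := om_pos n hn1
  have hn2 : (2 : ℝ) ≤ n := by exact_mod_cast hn
  have hp0 : 0 < p := by linarith
  have hp10 : 0 < p - 1 := by linarith
  have hα1 : 0 < α - 1 := by linarith
  have hα0 : 0 < α := by linarith
  have hden : 0 < α * (p - 1) + 1 := by positivity
  set a : ℝ := -bexp n p α - 1 with ha
  have ha' : a = -((n - 1) * (α - 1)) / (α * (p - 1) + 1) := by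
    rw [ha, bexp]
    field_simp
    ring
  set J : ℝ := ∫ s in r..R, s ^ a with hJ
  have hcont : ContinuousOn (fun s : ℝ => s ^ a) (Icc r R) := by
    intro s hs
    exact (Real.continuousAt_rpow_const s a
      (Or.inl (lt_of_lt_of_le hr hs.1).ne')).continuousWithinAt
  have hJpos : 0 < J := by
    rw [hJ]
    refine intervalIntegral.intervalIntegral_pos_of_pos_on
      (hcont.intervalIntegrable_of_Icc hrR.le) (fun s hs => ?_) hrR
    exact Real.rpow_pos_of_pos (hr.trans hs.1) a
  have hkey := h1 n p hn hp1 hp2 G f hD.isOpen hD.homeo.embed x₀ x r R hr hrR hG hx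
  have hkap : ENNReal.ofReal (kap n p) = segCap n p := by
    rw [kap, ENNReal.ofReal_toReal hfin.ne]
  have hk0 : 0 ≤ kap n p := ENNReal.toReal_nonneg
  rw [ENNReal.ofReal_mul hk0, hkap]
  refine hkey.trans ?_
  have hηm : Measurable (fun s : ℝ => ENNReal.ofReal (s ^ a / J)) :=
    ((measurable_id.pow_const a).div_const J).ennreal_ofReal
  have hη1 : 1 ≤ ∫⁻ s in Ioo r R, ENNReal.ofReal (s ^ a / J) := by
    rw [lint_Ioo (fun s => s ^ a / J) r R hrR (hcont.div_const J)
      (fun s hs => (div_pos (Real.rpow_pos_of_pos (hr.trans hs.1) a) hJpos).le)]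
    rw [intervalIntegral.integral_div, ← hJ, div_self hJpos.ne', ENNReal.ofReal_one]
  refine (hD.homeo.ring r R hr hrR hG _ hηm hη1).trans ?_
  have hconj : α.HolderConjugate (Real.conjExponent α) := Real.HolderConjugate.conjExponent hα
  set β : ℝ := Real.conjExponent α with hβ
  have hβ' : β = α / (α - 1) := rfl
  have hβ0 : 0 < β := by rw [hβ']; positivity
  have hH := ENNReal.lintegral_mul_le_Lp_mul_Lq
    ((volume : Measure (E n)).restrict {x | r < dist x x₀ ∧ dist x x₀ < R}) hconj
    (f := Q) (g := fun x => ENNReal.ofReal (dist x x₀ ^ a / J) ^ p) hD.meas.aemeasurable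
    ((hηm.comp (measurable_id.dist measurable_const)).pow_const p).aemeasurable
  refine (le_of_eq ?_).trans (hH.trans (le_of_eq ?_))
  · rfl
  rw [mul_comm]
  congr 1
  have hring := ring_int n hn1 x₀ (fun s => (ENNReal.ofReal (s ^ a / J) ^ p) ^ β)
    ((hηm.pow_const p).pow_const β) r R hr
  rw [hring]
  have hstep : ∫⁻ s in Ioo r R, (ENNReal.ofReal (s ^ a / J) ^ p) ^ β *
      ENNReal.ofReal (s ^ (n - 1)) = ENNReal.ofReal (J ^ (1 - p * β)) := by
    have e1 : ∫⁻ s in Ioo r R, (ENNReal.ofReal (s ^ a / J) ^ p) ^ β *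
        ENNReal.ofReal (s ^ (n - 1)) =
        ∫⁻ s in Ioo r R, ENNReal.ofReal (J ^ (-(p * β)) * s ^ a) := by
      refine setLIntegral_congr_fun measurableSet_Ioo fun s hs => ?_
      have hs0 : 0 < s := hr.trans hs.1
      have hsa : 0 < s ^ a := Real.rpow_pos_of_pos hs0 a
      rw [← ENNReal.rpow_mul, ENNReal.ofReal_rpow_of_pos (div_pos hsa hJpos),
        ← ENNReal.ofReal_mul (by positivity)]
      congr 1
      rw [Real.div_rpow hsa.le hJpos.le, ← Real.rpow_mul hs0.le, Real.rpow_neg hJpos.le,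
        div_mul_eq_mul_div, div_eq_inv_mul]
      congr 1
      rw [← Real.rpow_natCast s (n - 1), ← Real.rpow_add hs0]
      congr 1
      rw [Nat.cast_sub hn1, ha', hβ']
      field_simp
      ring
    rw [e1, lint_Ioo (fun s => J ^ (-(p * β)) * s ^ a) r R hrR
      (hcont.const_smul (J ^ (-(p * β)))) (fun s hs => by
        have := Real.rpow_pos_of_pos (hr.trans hs.1) a
        positivity)]
    rw [intervalIntegral.integral_const_mul, ← hJ]
    congr 1
    nth_rewrite 2 [← Real.rpow_one J]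
    rw [← Real.rpow_add hJpos]
    congr 1
    ring
  rw [hstep, ← ENNReal.ofReal_mul hom.le, ENNReal.ofReal_rpow_of_pos (by positivity)]
  congr 1
  rw [Real.mul_rpow hom.le (by positivity), ← Real.rpow_mul hJpos.le]
  have e2 : 1 / β = 1 - 1 / α := by
    rw [hβ']
    field_simp
  rw [e2]
  congr 2
  rw [hβ']
  field_simp
  ring

end Pool.Agent.Helper96.RQ
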